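import Pool.Agent.V1199.ProjD

/-!
# MP_2d1483_gt: the eigenvalue condition does not suffice in dimension five

Label the coordinates of `ℝ⁵` by the vertices of a pentagon and let `q_ij = 1` if `i`, `j` are
adjacent, `q_ij = 64/25` otherwise. Every `4 × 4` principal submatrix of `Q(q)` has at most one
positive eigenvalue, but no convex body in `ℝ⁵` has coordinate-plane projection areas `q`. The
obstruction is the inequality `w_j q_ik ≤ 9/8 (w_i q_jk + w_k q_ij)` for the widths `w` and the
areas `q` of a convex body (`Pool.Agent.V1199.Proj.triple`).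
-/

open MeasureTheory

namespace Pool.Agent.Results.MP_2d1483_gt.NotRealizable

/-- The symmetric `5 × 5` matrix with zero diagonal and `(i, j)` and `(j, i)` entries `q i j` for
`i < j` (only the values `q i j` with `i < j` matter). -/
def Q (q : Fin 5 → Fin 5 → ℝ) : Matrix (Fin 5) (Fin 5) ℝ :=
  fun i j => if i < j then q i j else if j < i then q j i else 0

/-- `q` is realizable: some convex body `A` (nonempty, compact, convex, possibly without interior
points) in `ℝ⁵` has projections of area `q i j` onto the coordinate planes, `i < j`. Area is the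
Lebesgue measure of `ℝ × ℝ`. -/
def Realizable (q : Fin 5 → Fin 5 → ℝ) : Prop :=
  ∃ A : Set (Fin 5 → ℝ), A.Nonempty ∧ IsCompact A ∧ Convex ℝ A ∧
    ∀ i j, i < j → volume ((fun x : Fin 5 → ℝ => (x i, x j)) '' A) = ENNReal.ofReal (q i j)

/-- The matrix `M` is symmetric and has at most one positive eigenvalue, counted with
multiplicity. -/
def AtMostOnePositive {n : ℕ} (M : Matrix (Fin n) (Fin n) ℝ) : Prop :=
  ∃ h : M.IsHermitian, (Finset.univ.filter fun i => 0 < h.eigenvalues i).card ≤ 1

/-- The pentagon: `1` on the sides, `64/25` on the diagonals. -/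
noncomputable def pentagon (i j : Fin 5) : ℝ := if j = i + 1 ∨ i = j + 1 then 1 else 64 / 25

lemma form_le (a b c d : ℝ) :
    2 * (a * b + b * c + c * d + 64 / 25 * (a * c + b * d + a * d))
      ≤ (b + c + 89 / 25 * (a + d)) ^ 2 := by
  nlinarith [sq_nonneg ((b - c) - (1 - 64 / 25) * (a - d)), sq_nonneg (a + d), sq_nonneg (a - d),
    sq_nonneg (b + c + 89 / 25 * (a + d))]

lemma card_le {n : ℕ} {M : Matrix (Fin n) (Fin n) ℝ} (h : M.IsHermitian)
    (l : (Fin n → ℝ) →ₗ[ℝ] ℝ) (hq : ∀ v, dotProduct v (M.mulVec v) ≤ (l v) ^ 2) :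
    (Finset.univ.filter fun i => 0 < h.eigenvalues i).card ≤ 1 := by
  by_contra hcon
  push Not at hcon
  obtain ⟨i, hi, j, hj, hij⟩ := Finset.one_lt_card.1 hcon
  rw [Finset.mem_filter] at hi hj
  have hi' := hi.2
  have hj' := hj.2
  set x : Fin n → ℝ := (h.eigenvectorBasis i).ofLp with hx
  set y : Fin n → ℝ := (h.eigenvectorBasis j).ofLp with hy
  have mx : M.mulVec x = h.eigenvalues i • x := h.mulVec_eigenvectorBasis i
  have my : M.mulVec y = h.eigenvalues j • y := h.mulVec_eigenvectorBasis j
  have on := h.eigenvectorBasis.orthonormal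
  have inner_eq : ∀ a b : EuclideanSpace ℝ (Fin n), inner ℝ a b = dotProduct a.ofLp b.ofLp := by
    intro a b
    rw [EuclideanSpace.inner_eq_star_dotProduct, dotProduct_comm]
    simp
  have xx : dotProduct x x = 1 := by
    rw [hx, ← inner_eq, real_inner_self_eq_norm_sq, on.1 i]; norm_num
  have yy : dotProduct y y = 1 := by
    rw [hy, ← inner_eq, real_inner_self_eq_norm_sq, on.1 j]; norm_num
  have xy : dotProduct x y = 0 := by
    rw [hx, hy, ← inner_eq]; exact on.2 hij
  have yx : dotProduct y x = 0 := by rw [dotProduct_comm]; exact xy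
  have key : ∀ s t : ℝ, s ^ 2 * h.eigenvalues i + t ^ 2 * h.eigenvalues j ≤ (s * l x + t * l y) ^ 2 := by
    intro s t
    have := hq (s • x + t • y)
    rw [Matrix.mulVec_add, Matrix.mulVec_smul, Matrix.mulVec_smul, mx, my] at this
    simp only [add_dotProduct, dotProduct_add, smul_dotProduct, dotProduct_smul, smul_eq_mul, xx, yy,
      xy, yx, map_add, map_smul, mul_zero, add_zero, zero_add, mul_one] at this
    nlinarith
  by_cases hz : l x = 0
  · have := key 1 0
    rw [hz] at this
    simp at this
    linarith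
  · have := key (l y) (-l x)
    have e : (l y * l x + -l x * l y) ^ 2 = 0 := by ring
    rw [e] at this
    have h1 : 0 < (-l x) ^ 2 * h.eigenvalues j := by
      apply mul_pos _ hj'
      have : 0 < (l x) ^ 2 := by positivity
      nlinarith
    have h2 : 0 ≤ (l y) ^ 2 * h.eigenvalues i := by positivity
    linarith

lemma Q_symm (q : Fin 5 → Fin 5 → ℝ) (i j : Fin 5) : Q q i j = Q q j i := by
  unfold Q
  rcases lt_trichotomy i j with h | h | h
  · simp [h, h.not_gt]
  · simp [h]
  · simp [h, h.not_gt]

lemma Qp_form (k : Fin 5) (x : Fin 5 → ℝ) (hk : x k = 0) :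
    ∑ m, x m * (∑ m', Q pentagon m m' * x m')
      ≤ (x (k + 2) + x (k + 3) + 89 / 25 * (x (k + 1) + x (k + 4))) ^ 2 := by
  have hQ : ∀ m m', Q pentagon m m' = if m = m' then 0 else if m' = m + 1 ∨ m = m' + 1 then 1 else 64 / 25 := by
    intro m m'
    unfold Q pentagon
    rcases lt_trichotomy m m' with h | h | h
    · simp [h, h.ne]
    · simp [h]
    · simp only [h.not_gt, h, h.ne', if_true, if_false, or_comm (a := m' = m + 1)]
  simp only [hQ]
  have key := form_le (x (k + 1)) (x (k + 2)) (x (k + 3)) (x (k + 4))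
  refine le_trans (le_of_eq ?_) key
  fin_cases k <;> simp only [Fin.sum_univ_five] <;> simp at hk ⊢ <;> rw [hk]
  all_goals ring

/-- Extension by zero of a vector along `e`. -/
def push (e : Fin 4 → Fin 5) : (Fin 4 → ℝ) →ₗ[ℝ] (Fin 5 → ℝ) where
  toFun v m := ∑ a, if e a = m then v a else 0
  map_add' v v' := by
    ext m
    simp only [Pi.add_apply, ← Finset.sum_add_distrib]
    apply Finset.sum_congr rfl
    intro a _
    split_ifs <;> simp
  map_smul' c v := by
    ext m
    simp only [Pi.smul_apply, smul_eq_mul, RingHom.id_apply, Finset.mul_sum]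
    apply Finset.sum_congr rfl
    intro a _
    split_ifs <;> simp

lemma push_sum (e : Fin 4 → Fin 5) (v : Fin 4 → ℝ) (f : Fin 5 → ℝ) :
    ∑ m, push e v m * f m = ∑ a, v a * f (e a) := by
  simp only [push, LinearMap.coe_mk, AddHom.coe_mk, Finset.sum_mul]
  rw [Finset.sum_comm]
  apply Finset.sum_congr rfl
  intro a _
  simp [ite_mul]

lemma atMost {e : Fin 4 → Fin 5} (he : Function.Injective e) :
    AtMostOnePositive ((Q pentagon).submatrix e e) := by
  have hsymm : ((Q pentagon).submatrix e e).IsHermitian := by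
    ext a b
    simp only [Matrix.conjTranspose_apply, Matrix.submatrix_apply, star_trivial]
    exact Q_symm _ _ _
  refine ⟨hsymm, ?_⟩
  obtain ⟨k, hk⟩ : ∃ k, ∀ a, e a ≠ k := by
    by_contra hcon
    push Not at hcon
    have hsurj : Function.Surjective e := hcon
    have := Fintype.card_le_of_surjective e hsurj
    simp at this
  set π : Fin 5 → ((Fin 5 → ℝ) →ₗ[ℝ] ℝ) := fun m => LinearMap.proj m with hπ
  set l : (Fin 4 → ℝ) →ₗ[ℝ] ℝ :=
    (π (k + 2) + π (k + 3) + (89 / 25 : ℝ) • (π (k + 1) + π (k + 4))) ∘ₗ push e with hl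
  apply card_le hsymm l
  intro v
  have h0 : push e v k = 0 := by
    simp only [push, LinearMap.coe_mk, AddHom.coe_mk]
    apply Finset.sum_eq_zero
    intro a _
    simp [hk a]
  have h1 := Qp_form k (push e v) h0
  have h2 : dotProduct v (((Q pentagon).submatrix e e).mulVec v)
      = ∑ m, push e v m * (∑ m', Q pentagon m m' * push e v m') := by
    rw [push_sum]
    simp only [dotProduct, Matrix.mulVec, Matrix.submatrix_apply]
    apply Finset.sum_congr rfl
    intro a _
    congr 1
    have := push_sum e v (fun m' => Q pentagon (e a) m')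
    simp only [mul_comm (Q pentagon (e a) _)]
    exact this.symm
  rw [h2]
  have h3 : l v = push e v (k + 2) + push e v (k + 3) + 89 / 25 * (push e v (k + 1) + push e v (k + 4)) := by
    rw [hl]; simp [hπ]; ring
  rw [h3]
  exact h1

open Pool.Agent.V1199.Proj in
lemma not_realizable : ¬ Realizable pentagon := by
  rintro ⟨A, hne, hc, hv, hA⟩
  have hval : ∀ i j : Fin 5, i < j → volume.real (pr A i j) = pentagon i j := by
    intro i j hij
    have h0 : 0 ≤ pentagon i j := by unfold pentagon; split_ifs <;> norm_num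
    rw [Measure.real]
    have : volume (pr A i j) = ENNReal.ofReal (pentagon i j) := hA i j hij
    rw [this, ENNReal.toReal_ofReal h0]
  have hval' : ∀ i j : Fin 5, i < j → volume.real (pr A j i) = pentagon i j := by
    intro i j hij
    rw [pr_swap j i hc]
    exact hval i j hij
  have v01 : pentagon 0 1 = 1 := by simp [pentagon]
  have v12 : pentagon 1 2 = 1 := by simp [pentagon]
  have v23 : pentagon 2 3 = 1 := by simp [pentagon]
  have v34 : pentagon 3 4 = 1 := by simp [pentagon]
  have v04 : pentagon 0 4 = 1 := by simp [pentagon]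
  have v02 : pentagon 0 2 = 64 / 25 := by simp [pentagon]
  have v13 : pentagon 1 3 = 64 / 25 := by simp [pentagon]
  have v24 : pentagon 2 4 = 64 / 25 := by simp [pentagon]
  have v03 : pentagon 0 3 = 64 / 25 := by simp [pentagon]
  have v14 : pentagon 1 4 = 64 / 25 := by simp [pentagon]
  have w0 : 0 < w A 0 := w_pos_of hc (j := 1) (by rw [hval 0 1 (by decide), v01]; norm_num)
  have w1 : 0 < w A 1 := w_pos_of hc (j := 2) (by rw [hval 1 2 (by decide), v12]; norm_num)
  have w2 : 0 < w A 2 := w_pos_of hc (j := 3) (by rw [hval 2 3 (by decide), v23]; norm_num)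
  have w3 : 0 < w A 3 := w_pos_of hc (j := 4) (by rw [hval 3 4 (by decide), v34]; norm_num)
  have w4 : 0 < w A 4 := w_pos_of hc (j := 0) (by rw [hval' 0 4 (by decide), v04]; norm_num)
  have t1 := triple hc hv hne w0 w1 w2
  have t2 := triple hc hv hne w1 w2 w3
  have t3 := triple hc hv hne w2 w3 w4
  have t4 := triple hc hv hne w3 w4 w0
  have t5 := triple hc hv hne w4 w0 w1
  rw [hval 0 2 (by decide), hval 0 1 (by decide), hval' 1 2 (by decide), v02, v01, v12] at t1
  rw [hval 1 3 (by decide), hval 1 2 (by decide), hval' 2 3 (by decide), v13, v12, v23] at t2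
  rw [hval 2 4 (by decide), hval 2 3 (by decide), hval' 3 4 (by decide), v24, v23, v34] at t3
  rw [hval' 0 3 (by decide), hval 3 4 (by decide), hval 0 4 (by decide), v03, v34, v04] at t4
  rw [hval' 1 4 (by decide), hval' 0 4 (by decide), hval' 0 1 (by decide), v14, v04, v01] at t5
  linarith

/-- **MP_2d1483_gt, Q1 (negated form).** There is a vector `q` of nonnegative (even positive) reals,
indexed by the pairs `i < j` in `{0, …, 4}`, such that every `4 × 4` principal submatrix of `Q(q)`
has at most one positive eigenvalue, while no convex body in `ℝ⁵` has coordinate-plane projection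
areas `q`. One can take `q i j = 1` if `i`, `j` are adjacent modulo `5` and `q i j = 64/25`
otherwise. -/
theorem result : ∃ q : Fin 5 → Fin 5 → ℝ,
    (∀ i j, i < j → 0 < q i j) ∧
    (∀ e : Fin 4 → Fin 5, StrictMono e → AtMostOnePositive ((Q q).submatrix e e)) ∧
    ¬ Realizable q := by
  refine ⟨pentagon, ?_, ?_, not_realizable⟩
  · intro i j _
    unfold pentagon
    split_ifs <;> norm_num
  · intro e he
    exact atMost he.injective

end Pool.Agent.Results.MP_2d1483_gt.NotRealizable
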